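import Pool.Agent.helper7.BQ.Spec
import Pool.Agent.helper74.TG.SW

/-! Row SWT of BQ: Siegel-Walfisz for the primes of `(x, 2x]`. -/

set_option autoImplicit false

namespace Pool.Agent.BQ

open Finset ArithmeticFunction Filter

private theorem SWT_split (x q c : ℕ) :
    ∑ n ∈ Ioc 0 (2 * x) with n ≡ c [MOD q], (vonMangoldt n : ℝ) =
      ∑ n ∈ Ioc 0 x with n ≡ c [MOD q], (vonMangoldt n : ℝ) +
        ∑ n ∈ (Ioc x (2 * x)).filter (fun n => n % q = c % q), (vonMangoldt n : ℝ) := by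
  have h1 : Ioc 0 (2 * x) = Ioc 0 x ∪ Ioc x (2 * x) := by
    rw [Finset.Ioc_union_Ioc_eq_Ioc (Nat.zero_le _) (by omega)]
  rw [h1, Finset.filter_union, Finset.sum_union]
  · rfl
  · apply Finset.disjoint_filter_filter
    rw [Finset.disjoint_left]
    intro a ha hb
    rw [Finset.mem_Ioc] at ha hb
    omega

private theorem SWT_pp (x q c : ℕ) (hx : 1 ≤ x) :
    |∑ n ∈ (Ioc x (2 * x)).filter (fun n => n % q = c % q), (vonMangoldt n : ℝ) -
      ∑ p ∈ (Pr x).filter (fun p => p % q = c % q), Real.log p| ≤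
      2 * Real.sqrt (2 * x) * Real.log (2 * x) := by
  have h1 : ∑ p ∈ (Pr x).filter (fun p => p % q = c % q), Real.log p =
      ∑ n ∈ (Ioc x (2 * x)).filter (fun n => n % q = c % q),
        (if n.Prime then Real.log n else 0) := by
    unfold Pr
    rw [Finset.filter_comm, Finset.sum_filter]
  have h2 : ∀ n : ℕ, 0 ≤ (vonMangoldt n : ℝ) - (if n.Prime then Real.log n else 0) := by
    intro n
    split_ifs with h
    · rw [vonMangoldt_apply_prime h, sub_self]
    · rw [sub_zero]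
      exact vonMangoldt_nonneg
  rw [h1, ← Finset.sum_sub_distrib, abs_of_nonneg (Finset.sum_nonneg fun n _ => h2 n)]
  have h3 : ∑ n ∈ (Ioc x (2 * x)).filter (fun n => n % q = c % q),
      ((vonMangoldt n : ℝ) - (if n.Prime then Real.log n else 0)) ≤
      ∑ n ∈ Ioc 0 (2 * x), ((vonMangoldt n : ℝ) - (if n.Prime then Real.log n else 0)) := by
    apply Finset.sum_le_sum_of_subset_of_nonneg
    · intro n hn
      rw [Finset.mem_filter, Finset.mem_Ioc] at hn
      rw [Finset.mem_Ioc]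
      omega
    · intro n _ _
      exact h2 n
  have h4 : ∑ n ∈ Ioc 0 (2 * x), ((vonMangoldt n : ℝ) - (if n.Prime then Real.log n else 0)) =
      Chebyshev.psi (2 * x) - Chebyshev.theta (2 * x) := by
    have h5 : ⌊(2 * x : ℝ)⌋₊ = 2 * x := by
      have h6 : (2 * x : ℝ) = ((2 * x : ℕ) : ℝ) := by push_cast; rfl
      rw [h6, Nat.floor_natCast]
    unfold Chebyshev.psi Chebyshev.theta
    rw [h5, Finset.sum_filter, ← Finset.sum_sub_distrib]
  have hx' : (1 : ℝ) ≤ x := by exact_mod_cast hx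
  refine h3.trans ?_
  rw [h4]
  exact Chebyshev.psi_sub_theta_le (by linarith)

private theorem SWT_ev (A : ℕ) (C x₀ : ℝ) : ∀ᶠ x : ℕ in atTop,
    x₀ ≤ 2 * (x : ℝ) ∧ 8 * C ≤ Real.log x ∧ 2 ≤ (x : ℝ) ∧
      256 * Real.log x ^ (2 * (A + 1)) ≤ x := by
  have hnat : Tendsto (fun x : ℕ => (x : ℝ)) atTop atTop := tendsto_natCast_atTop_atTop
  have e1 : ∀ᶠ x : ℝ in atTop, x₀ ≤ 2 * x := by
    filter_upwards [eventually_ge_atTop (x₀ / 2)] with x hx
    linarith
  have e2 : ∀ᶠ x : ℝ in atTop, 8 * C ≤ Real.log x :=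
    Real.tendsto_log_atTop.eventually_ge_atTop _
  have e3 : ∀ᶠ x : ℝ in atTop, 256 * Real.log x ^ (2 * (A + 1)) ≤ x := by
    have h := (Real.isLittleO_pow_log_id_atTop (n := 2 * (A + 1))).bound
      (show (0 : ℝ) < 1 / 256 by norm_num)
    filter_upwards [h, eventually_ge_atTop (1 : ℝ)] with x hx hx1
    rw [Real.norm_eq_abs, id, Real.norm_of_nonneg (by linarith)] at hx
    have h2 := le_abs_self (Real.log x ^ (2 * (A + 1)))
    linarith
  filter_upwards [hnat.eventually e1, hnat.eventually e2, hnat.eventually e3,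
    hnat.eventually (eventually_ge_atTop (2 : ℝ))] with x h1 h2 h3 h4
  exact ⟨h1, h2, h4, h3⟩

theorem SWT : SWT_stmt := by
  intro A K
  obtain ⟨C, x₀, hC, hSW⟩ := Pool.Agent.helper74.TG.siegel_walfisz (A + 1) K
  obtain ⟨n₀, hn₀⟩ := Filter.eventually_atTop.1 (SWT_ev A C x₀)
  refine ⟨n₀, fun x hx q hq hqK c hc => ?_⟩
  obtain ⟨h1, h2, h3, h4⟩ := hn₀ x hx
  have hx0 : (0 : ℝ) < x := by linarith
  have hxn : 1 ≤ x := by
    have : (1 : ℝ) ≤ x := by linarith
    exact_mod_cast this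
  have hlog : 0 < Real.log x := Real.log_pos (by linarith)
  have hlogle : Real.log x ≤ Real.log (2 * x) := Real.log_le_log hx0 (by linarith)
  have hlog2 : Real.log (2 * x) ≤ 2 * Real.log x := by
    rw [Real.log_mul (by norm_num) hx0.ne']
    have : Real.log 2 ≤ Real.log x := Real.log_le_log (by norm_num) h3
    linarith
  have hq' : (q : ℝ) ≤ Real.log (2 * x) ^ K :=
    hqK.trans (pow_le_pow_left₀ hlog.le hlogle K)
  have s1 := hSW (2 * x) h1 q hq hq' c hc (2 * x) (by push_cast; exact le_refl _)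
  have s2 := hSW (2 * x) h1 q hq hq' c hc x (by linarith)
  have hpp := SWT_pp x q c hxn
  rw [SWT_split] at s1
  have hmain : C * (2 * x) / Real.log (2 * x) ^ (A + 1) ≤ 2 * C * x / Real.log x ^ (A + 1) := by
    have h5 : C * (2 * x) = 2 * C * x := by ring
    rw [h5]
    apply div_le_div_of_nonneg_left (by positivity) (by positivity)
    exact pow_le_pow_left₀ hlog.le hlogle _
  have hmain2 : 2 * C * x / Real.log x ^ (A + 1) ≤ 1 / 4 * (x / Real.log x ^ A) := by
    rw [pow_succ, ← div_div, div_le_iff₀ hlog]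
    have h6 : 0 ≤ x / Real.log x ^ A := by positivity
    calc 2 * C * x / Real.log x ^ A = 2 * C * (x / Real.log x ^ A) := by ring
      _ ≤ 1 / 4 * Real.log x * (x / Real.log x ^ A) := by
          apply mul_le_mul_of_nonneg_right _ h6
          linarith
      _ = 1 / 4 * (x / Real.log x ^ A) * Real.log x := by ring
  have hsq : 16 * Real.log x ^ (A + 1) ≤ Real.sqrt x := by
    apply Real.le_sqrt_of_sq_le
    calc (16 * Real.log x ^ (A + 1)) ^ 2 = 256 * Real.log x ^ (2 * (A + 1)) := by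
          rw [mul_pow, ← pow_mul, mul_comm (A + 1) 2]
          norm_num
      _ ≤ x := h4
  have hpp2 : 2 * Real.sqrt (2 * x) * Real.log (2 * x) ≤ 1 / 2 * (x / Real.log x ^ A) := by
    have h7 : Real.sqrt (2 * x) ≤ 2 * Real.sqrt x := by
      rw [Real.sqrt_le_left (by positivity), mul_pow, Real.sq_sqrt hx0.le]
      linarith
    have h8 : 2 * Real.sqrt (2 * x) * Real.log (2 * x) ≤
        2 * (2 * Real.sqrt x) * (2 * Real.log x) := by
      apply mul_le_mul _ hlog2 (hlog.le.trans hlogle) (by positivity)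
      linarith
    refine h8.trans ?_
    rw [← mul_div_assoc, le_div_iff₀ (by positivity)]
    calc 2 * (2 * Real.sqrt x) * (2 * Real.log x) * Real.log x ^ A
        = 1 / 2 * (Real.sqrt x * (16 * Real.log x ^ (A + 1))) := by rw [pow_succ]; ring
      _ ≤ 1 / 2 * (Real.sqrt x * Real.sqrt x) := by
          apply mul_le_mul_of_nonneg_left _ (by norm_num)
          exact mul_le_mul_of_nonneg_left hsq (Real.sqrt_nonneg _)
      _ = 1 / 2 * x := by rw [Real.mul_self_sqrt hx0.le]
  set P := ∑ p ∈ (Pr x).filter (fun p => p % q = c % q), Real.log p with hP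
  set V := ∑ n ∈ (Ioc x (2 * x)).filter (fun n => n % q = c % q), (vonMangoldt n : ℝ) with hV
  set U := ∑ n ∈ Ioc 0 x with n ≡ c [MOD q], (vonMangoldt n : ℝ) with hU
  have hb : C * (2 * (x : ℝ)) / Real.log (2 * x) ^ (A + 1) ≤ 1 / 4 * (x / Real.log x ^ A) :=
    hmain.trans hmain2
  have s1' := abs_le.1 (s1.trans hb)
  have s2' := abs_le.1 (s2.trans hb)
  have s3' := abs_le.1 (hpp.trans hpp2)
  have e1 : ((2 * x : ℕ) : ℝ) / (Nat.totient q : ℝ) = x / (Nat.totient q : ℝ) +
      x / (Nat.totient q : ℝ) := by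
    push_cast
    ring
  rw [e1] at s1'
  obtain ⟨a1, a2⟩ := s1'
  obtain ⟨b1, b2⟩ := s2'
  obtain ⟨c1, c2⟩ := s3'
  rw [abs_le]
  constructor <;> linarith

end Pool.Agent.BQ
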