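import Pool.Agent.helper7.BQ.Spec

/-! Row PPW of BQ: the contribution of the proper prime powers. -/

set_option autoImplicit false

namespace Pool.Agent.BQ

open Finset ArithmeticFunction Filter

private theorem PPW_gap (m d j : ℕ) (hj : 1 ≤ j) :
    m ^ j + d * m ^ (j - 1) ≤ (m + d) ^ j := by
  obtain ⟨i, rfl⟩ : ∃ i, j = i + 1 := ⟨j - 1, by omega⟩
  rw [Nat.add_sub_cancel, pow_succ, pow_succ]
  calc m ^ i * m + d * m ^ i = m ^ i * (m + d) := by ring
    _ ≤ (m + d) ^ i * (m + d) :=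
        Nat.mul_le_mul_right _ (Nat.pow_le_pow_left (Nat.le_add_right _ _) _)

private theorem PPW_count (x B a N j : ℕ) (hx : 1 ≤ x) (ha : x ^ 2 ≤ a) (hj : 2 ≤ j) :
    ((range N).filter fun m => a ≤ m ^ j ∧ m ^ j < a + B).card ≤ B / x + 1 := by
  rcases ((range N).filter fun m => a ≤ m ^ j ∧ m ^ j < a + B).eq_empty_or_nonempty with h | h
  · rw [h, Finset.card_empty]
    exact Nat.zero_le _
  · obtain ⟨m₀, hmem, hmin⟩ := Finset.exists_min_image _ (fun m : ℕ => m) h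
    rw [Finset.mem_filter] at hmem
    obtain ⟨_, h0, _⟩ := hmem
    have hx2 : 1 ≤ x ^ 2 := Nat.one_le_pow _ _ hx
    have hm1 : 1 ≤ m₀ := by
      rcases Nat.eq_zero_or_pos m₀ with h2 | h2
      · rw [h2, zero_pow (by omega)] at h0
        omega
      · exact h2
    have hpow : x ≤ m₀ ^ (j - 1) := by
      have h1 : x ^ 2 ≤ (m₀ ^ (j - 1)) ^ 2 := by
        rw [← pow_mul]
        calc x ^ 2 ≤ a := ha
          _ ≤ m₀ ^ j := h0
          _ ≤ m₀ ^ ((j - 1) * 2) := Nat.pow_le_pow_right hm1 (by omega)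
      exact (Nat.pow_le_pow_iff_left (by norm_num)).1 h1
    have hsub : ((range N).filter fun m => a ≤ m ^ j ∧ m ^ j < a + B) ⊆
        Icc m₀ (m₀ + B / x) := by
      intro m hm
      have hle : m₀ ≤ m := hmin m hm
      rw [Finset.mem_filter] at hm
      obtain ⟨_, _, h2⟩ := hm
      rw [Finset.mem_Icc]
      refine ⟨hle, ?_⟩
      obtain ⟨d, rfl⟩ := Nat.exists_eq_add_of_le hle
      have h3 := PPW_gap m₀ d j (by omega)
      have h4 : d * x ≤ d * m₀ ^ (j - 1) := Nat.mul_le_mul_left _ hpow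
      have h5 : d * x ≤ B := by omega
      have h6 : d ≤ B / x := (Nat.le_div_iff_mul_le (by omega)).2 h5
      exact Nat.add_le_add_left h6 _
    refine (Finset.card_le_card hsub).trans ?_
    rw [Nat.card_Icc, Nat.add_assoc, Nat.add_sub_cancel_left]

private theorem PPW_int (x B a J : ℕ) (hx : 1 ≤ x) (ha : x ^ 2 ≤ a) (hJ : a + B ≤ 2 ^ J) :
    ((Ico a (a + B)).filter fun n => IsPrimePow n ∧ ¬ n.Prime).card ≤ J * (B / x + 1) := by
  have hsub : ((Ico a (a + B)).filter fun n => IsPrimePow n ∧ ¬ n.Prime) ⊆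
      (Ico 2 J).biUnion fun j =>
        ((range (a + B)).filter fun m => a ≤ m ^ j ∧ m ^ j < a + B).image fun m => m ^ j := by
    intro n hn
    rw [Finset.mem_filter, Finset.mem_Ico] at hn
    obtain ⟨⟨h1, h2⟩, h3, h4⟩ := hn
    obtain ⟨q, k, hq, hk, rfl⟩ := (isPrimePow_nat_iff n).1 h3
    have hk2 : 2 ≤ k := by
      rcases Nat.lt_or_ge k 2 with h | h
      · have h5 : k = 1 := by omega
        rw [h5, pow_one] at h4
        exact absurd hq h4
      · exact h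
    have hkJ : k < J := by
      have h5 : 2 ^ k ≤ q ^ k := Nat.pow_le_pow_left hq.two_le k
      have h6 : 2 ^ k < 2 ^ J := by omega
      exact (Nat.pow_lt_pow_iff_right (by norm_num)).1 h6
    rw [Finset.mem_biUnion]
    refine ⟨k, Finset.mem_Ico.2 ⟨hk2, hkJ⟩, ?_⟩
    rw [Finset.mem_image]
    refine ⟨q, ?_, rfl⟩
    rw [Finset.mem_filter, Finset.mem_range]
    refine ⟨?_, h1, h2⟩
    exact lt_of_le_of_lt (Nat.le_self_pow (by omega) q) h2
  refine (Finset.card_le_card hsub).trans (Finset.card_biUnion_le.trans ?_)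
  calc ∑ j ∈ Ico 2 J, (((range (a + B)).filter fun m => a ≤ m ^ j ∧ m ^ j < a + B).image
        fun m => m ^ j).card ≤ ∑ _j ∈ Ico 2 J, (B / x + 1) := by
        apply Finset.sum_le_sum
        intro j hj
        exact Finset.card_image_le.trans
          (PPW_count x B a (a + B) j hx ha (Finset.mem_Ico.1 hj).1)
    _ = (J - 2) * (B / x + 1) := by rw [Finset.sum_const, Nat.card_Ico, smul_eq_mul]
    _ ≤ J * (B / x + 1) := Nat.mul_le_mul_right _ (Nat.sub_le _ _)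

private theorem PPW_p (x B J p : ℕ) (b₀ : ℤ) (L : ℝ) (hx : 1 ≤ x) (hb : |b₀| ≤ (x : ℤ) ^ 2)
    (hB : B ≤ x ^ 2) (hp : x < p) (hp2 : p ≤ 2 * x) (hJ : 33 * x ^ 2 ≤ 2 ^ J)
    (hL : Real.log ((33 * x ^ 2 : ℕ) : ℝ) ≤ L) :
    ∑ b ∈ Ioc b₀ (b₀ + B), (if ¬ (8 * (p : ℤ) ^ 2 - b).toNat.Prime then
      vonMangoldt (8 * (p : ℤ) ^ 2 - b).toNat else 0) ≤ ((J * (B / x + 1) : ℕ) : ℝ) * L := by
  have hb1 := (abs_le.1 hb).1
  have hb2 := (abs_le.1 hb).2
  have hBz : (B : ℤ) ≤ (x : ℤ) ^ 2 := by exact_mod_cast hB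
  have hpz : (x : ℤ) ^ 2 ≤ (p : ℤ) ^ 2 := by
    have : (x : ℤ) ≤ p := by exact_mod_cast hp.le
    exact pow_le_pow_left₀ (Int.natCast_nonneg _) this 2
  have hpz2 : (p : ℤ) ^ 2 ≤ 4 * (x : ℤ) ^ 2 := by
    have h : (p : ℤ) ≤ 2 * x := by exact_mod_cast hp2
    calc (p : ℤ) ^ 2 ≤ (2 * (x : ℤ)) ^ 2 := pow_le_pow_left₀ (Int.natCast_nonneg _) h 2
      _ = 4 * (x : ℤ) ^ 2 := by ring
  have hx2 : (1 : ℤ) ≤ (x : ℤ) ^ 2 := by
    have : (1 : ℤ) ≤ x := by exact_mod_cast hx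
    exact one_le_pow₀ this
  obtain ⟨a, ha⟩ : ∃ a : ℕ, (a : ℤ) = 8 * (p : ℤ) ^ 2 - b₀ - B :=
    ⟨(8 * (p : ℤ) ^ 2 - b₀ - B).toNat, Int.toNat_of_nonneg (by linarith)⟩
  have hax : x ^ 2 ≤ a := by
    have h : (x : ℤ) ^ 2 ≤ (a : ℤ) := by rw [ha]; linarith
    exact_mod_cast h
  have haB : a + B ≤ 33 * x ^ 2 := by
    have h : (a : ℤ) + B ≤ 33 * (x : ℤ) ^ 2 := by rw [ha]; linarith
    exact_mod_cast h
  have hcount := PPW_int x B a J hx hax (haB.trans hJ)
  have hL0 : 0 ≤ L := by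
    refine le_trans (Real.log_nonneg ?_) hL
    have : 1 ≤ 33 * x ^ 2 := by
      have := Nat.one_le_pow 2 x hx
      omega
    exact_mod_cast this
  have hbd : ∀ b ∈ Ioc b₀ (b₀ + B), (a : ℤ) ≤ 8 * (p : ℤ) ^ 2 - b ∧
      8 * (p : ℤ) ^ 2 - b < a + B := by
    intro b hb'
    rw [Finset.mem_Ioc] at hb'
    obtain ⟨h1, h2⟩ := hb'
    constructor <;> linarith
  have hterm : ∀ b ∈ Ioc b₀ (b₀ + B), (if ¬ (8 * (p : ℤ) ^ 2 - b).toNat.Prime then
      vonMangoldt (8 * (p : ℤ) ^ 2 - b).toNat else 0) ≤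
      if IsPrimePow (8 * (p : ℤ) ^ 2 - b).toNat ∧ ¬ (8 * (p : ℤ) ^ 2 - b).toNat.Prime then L
        else 0 := by
    intro b hb'
    obtain ⟨h1, h2⟩ := hbd b hb'
    obtain ⟨n, hn⟩ : ∃ n : ℕ, 8 * (p : ℤ) ^ 2 - b = n :=
      ⟨(8 * (p : ℤ) ^ 2 - b).toNat, (Int.toNat_of_nonneg (by omega)).symm⟩
    rw [hn] at h1 h2 ⊢
    rw [Int.toNat_natCast]
    have h3 : a ≤ n := by exact_mod_cast h1
    have h4 : n < a + B := by exact_mod_cast h2
    by_cases hpr : n.Prime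
    · rw [if_neg (not_not.2 hpr), if_neg (fun h => h.2 hpr)]
    · rw [if_pos hpr]
      by_cases hpp : IsPrimePow n
      · rw [if_pos ⟨hpp, hpr⟩]
        refine vonMangoldt_le_log.trans (le_trans (Real.log_le_log ?_ ?_) hL)
        · exact_mod_cast hpp.pos
        · have : n ≤ 33 * x ^ 2 := by omega
          exact_mod_cast this
      · rw [if_neg (fun h => hpp h.1), vonMangoldt_eq_zero_iff.2 hpp]
  refine (Finset.sum_le_sum hterm).trans ?_
  rw [← Finset.sum_filter, Finset.sum_const, nsmul_eq_mul]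
  apply mul_le_mul_of_nonneg_right _ hL0
  have hcard : ((Ioc b₀ (b₀ + B)).filter fun b => IsPrimePow (8 * (p : ℤ) ^ 2 - b).toNat ∧
      ¬ (8 * (p : ℤ) ^ 2 - b).toNat.Prime).card ≤
      ((Ico a (a + B)).filter fun n => IsPrimePow n ∧ ¬ n.Prime).card := by
    apply Finset.card_le_card_of_injOn (fun b : ℤ => (8 * (p : ℤ) ^ 2 - b).toNat)
    · intro b hb'
      have hb'' := Finset.mem_coe.1 hb'
      rw [Finset.mem_filter] at hb''
      obtain ⟨h1, h2⟩ := hb''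
      obtain ⟨h3, h4⟩ := hbd b h1
      refine Finset.mem_coe.2 (Finset.mem_filter.2 ⟨?_, h2⟩)
      rw [Finset.mem_Ico]
      show a ≤ (8 * (p : ℤ) ^ 2 - b).toNat ∧ (8 * (p : ℤ) ^ 2 - b).toNat < a + B
      constructor <;> omega
    · intro b hb' b' hb'' he
      have h1 := (Finset.mem_filter.1 (Finset.mem_coe.1 hb')).1
      have h2 := (Finset.mem_filter.1 (Finset.mem_coe.1 hb'')).1
      obtain ⟨h3, h4⟩ := hbd b h1
      obtain ⟨h5, h6⟩ := hbd b' h2
      have he' : (8 * (p : ℤ) ^ 2 - b).toNat = (8 * (p : ℤ) ^ 2 - b').toNat := he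
      omega
  exact_mod_cast hcard.trans hcount

theorem PPW : PPW_stmt := by
  refine ⟨⌈Real.exp 72⌉₊, fun x hx b₀ B hb hxB hB => ?_⟩
  have hx' : Real.exp 72 ≤ x := (Nat.le_ceil _).trans (by exact_mod_cast hx)
  have hx34 : (34 : ℝ) ≤ x := by
    have h1 : (72 : ℝ) + 1 ≤ Real.exp 72 := Real.add_one_le_exp 72
    linarith
  have hx0 : (0 : ℝ) < x := by linarith
  have hxn : 1 ≤ x := by
    have : (1 : ℝ) ≤ x := by linarith
    exact_mod_cast this
  have hlog : 72 ≤ Real.log x := by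
    rw [Real.le_log_iff_exp_le hx0]
    exact hx'
  have hlog33 : Real.log ((33 * x ^ 2 : ℕ) : ℝ) ≤ 3 * Real.log x := by
    push_cast
    rw [Real.log_mul (by norm_num) (by positivity), Real.log_pow]
    have : Real.log 33 ≤ Real.log x := Real.log_le_log (by norm_num) (by linarith)
    push_cast
    linarith
  have hlog2 : Real.log (2 * x) ≤ 2 * Real.log x := by
    rw [Real.log_mul (by norm_num) hx0.ne']
    have : Real.log 2 ≤ Real.log x := Real.log_le_log (by norm_num) (by linarith)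
    linarith
  obtain ⟨J, hJ⟩ : ∃ J, J = Nat.log 2 (33 * x ^ 2) + 1 := ⟨_, rfl⟩
  have hJ1 : 33 * x ^ 2 ≤ 2 ^ J := by
    rw [hJ]
    exact (Nat.lt_pow_succ_log_self (by norm_num) _).le
  have hJ2 : (J : ℝ) ≤ 6 * Real.log x := by
    have h1 : 2 ^ (Nat.log 2 (33 * x ^ 2)) ≤ 33 * x ^ 2 := by
      apply Nat.pow_log_le_self
      have := Nat.one_le_pow 2 x hxn
      omega
    have h2 : ((2 ^ (Nat.log 2 (33 * x ^ 2)) : ℕ) : ℝ) ≤ ((33 * x ^ 2 : ℕ) : ℝ) := by
      exact_mod_cast h1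
    have h3 := Real.log_le_log (by positivity) h2
    rw [Nat.cast_pow, Real.log_pow] at h3
    have h4 := Real.log_two_gt_d9
    have h5 : (Nat.log 2 (33 * x ^ 2) : ℝ) * 0.69 ≤
        (Nat.log 2 (33 * x ^ 2) : ℝ) * Real.log ((2 : ℕ) : ℝ) := by
      apply mul_le_mul_of_nonneg_left _ (Nat.cast_nonneg _)
      push_cast
      linarith
    rw [hJ]
    push_cast
    have h6 : (Nat.log 2 (33 * x ^ 2) : ℝ) * 0.69 ≤ 3 * Real.log x := h5.trans (h3.trans hlog33)
    linarith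
  have hswap : ∑ b ∈ Ioc b₀ (b₀ + B), ∑ p ∈ (Pr x).filter
      (fun p : ℕ => ¬ (8 * (p : ℤ) ^ 2 - b).toNat.Prime),
      Real.log p * vonMangoldt (8 * (p : ℤ) ^ 2 - b).toNat =
      ∑ p ∈ Pr x, Real.log p * ∑ b ∈ Ioc b₀ (b₀ + B),
        (if ¬ (8 * (p : ℤ) ^ 2 - b).toNat.Prime then
          vonMangoldt (8 * (p : ℤ) ^ 2 - b).toNat else 0) := by
    have h1 : ∀ b ∈ Ioc b₀ (b₀ + (B : ℤ)), ∑ p ∈ (Pr x).filter
        (fun p : ℕ => ¬ (8 * (p : ℤ) ^ 2 - b).toNat.Prime),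
        Real.log p * vonMangoldt (8 * (p : ℤ) ^ 2 - b).toNat =
        ∑ p ∈ Pr x, Real.log p * (if ¬ (8 * (p : ℤ) ^ 2 - b).toNat.Prime then
          vonMangoldt (8 * (p : ℤ) ^ 2 - b).toNat else 0) := by
      intro b _
      rw [Finset.sum_filter]
      apply Finset.sum_congr rfl
      intro p _
      by_cases h : (8 * (p : ℤ) ^ 2 - b).toNat.Prime
      · rw [if_neg (not_not.2 h), if_neg (not_not.2 h), mul_zero]
      · rw [if_pos h, if_pos h]
    rw [Finset.sum_congr rfl h1, Finset.sum_comm]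
    apply Finset.sum_congr rfl
    intro p _
    rw [Finset.mul_sum]
  rw [hswap]
  have hBx : ((J * (B / x + 1) : ℕ) : ℝ) ≤ 6 * Real.log x * (2 * B / x) := by
    push_cast
    have h1 : ((B / x : ℕ) : ℝ) ≤ (B : ℝ) / x := Nat.cast_div_le
    have h2 : (1 : ℝ) ≤ (B : ℝ) / x := by
      rw [le_div_iff₀ hx0, one_mul]
      exact_mod_cast hxB
    have h3 : ((B / x : ℕ) : ℝ) + 1 ≤ 2 * B / x := by
      rw [mul_div_assoc]
      linarith
    exact mul_le_mul hJ2 h3 (by positivity) (by positivity)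
  have hp : ∀ p ∈ Pr x, Real.log p * ∑ b ∈ Ioc b₀ (b₀ + B),
        (if ¬ (8 * (p : ℤ) ^ 2 - b).toNat.Prime then
          vonMangoldt (8 * (p : ℤ) ^ 2 - b).toNat else 0) ≤
      (2 * Real.log x) * (6 * Real.log x * (2 * B / x) * (3 * Real.log x)) := by
    intro p hp
    unfold Pr at hp
    rw [Finset.mem_filter, Finset.mem_Ioc] at hp
    obtain ⟨⟨hp1, hp2⟩, _⟩ := hp
    have h1 := PPW_p x B J p b₀ (3 * Real.log x) hxn hb hB hp1 hp2 hJ1 hlog33
    have h2 : Real.log p ≤ 2 * Real.log x := by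
      refine le_trans (Real.log_le_log ?_ ?_) hlog2
      · exact_mod_cast (lt_of_le_of_lt (Nat.zero_le _) hp1)
      · exact_mod_cast hp2
    have h3 : 0 ≤ ∑ b ∈ Ioc b₀ (b₀ + B),
        (if ¬ (8 * (p : ℤ) ^ 2 - b).toNat.Prime then
          vonMangoldt (8 * (p : ℤ) ^ 2 - b).toNat else 0) := by
      apply Finset.sum_nonneg
      intro b _
      split_ifs
      all_goals first | exact vonMangoldt_nonneg | exact le_refl _
    apply mul_le_mul h2 _ h3 (by linarith)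
    refine h1.trans (mul_le_mul_of_nonneg_right hBx (by linarith))
  refine (Finset.sum_le_sum hp).trans ?_
  rw [Finset.sum_const, nsmul_eq_mul]
  have hcard : ((Pr x).card : ℝ) ≤ x := by
    have h1 : (Pr x).card ≤ (Ioc x (2 * x)).card := Finset.card_filter_le _ _
    rw [Nat.card_Ioc] at h1
    have h2 : (Pr x).card ≤ x := by omega
    exact_mod_cast h2
  have hpos : 0 ≤ (2 * Real.log x) * (6 * Real.log x * (2 * B / x) * (3 * Real.log x)) := by
    have : 0 ≤ Real.log x := by linarith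
    positivity
  refine (mul_le_mul_of_nonneg_right hcard hpos).trans ?_
  have e1 : (x : ℝ) * ((2 * Real.log x) * (6 * Real.log x * (2 * B / x) * (3 * Real.log x))) =
      B * (72 * Real.log x ^ 3) := by
    field_simp
    ring
  rw [e1]
  apply mul_le_mul_of_nonneg_left _ (Nat.cast_nonneg _)
  rw [pow_succ (Real.log x) 3, mul_comm]
  exact mul_le_mul_of_nonneg_left hlog (pow_nonneg (by linarith) 3)

end Pool.Agent.BQ
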